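import Pool.Agent.H94.ZDefs
import Pool.Agent.H94.ZProof

set_option autoImplicit false

namespace Pool.Agent.Results.MP_6f16c7_an.Extension

open Pool.Agent.H94.ZDefs

/-- If `0 → J → A → C → 0` is an extension of C*-algebras with `J` and `C` both `Z*`-algebras and
`C` simple, then `A` is a `Z*`-algebra (simplicity of `J` is not needed). -/
theorem result {J A C : Type} [NonUnitalCStarAlgebra J] [NonUnitalCStarAlgebra A]
    [NonUnitalCStarAlgebra C] (ι : J →⋆ₙₐ[ℂ] A) (π : A →⋆ₙₐ[ℂ] C)
    (hι : Function.Injective ι) (hπ : Function.Surjective π) (hex : Function.Exact ι π)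
    (hJ : IsZStar J) (hC : IsZStar C) (hs : IsSimple C) : IsZStar A :=
  Pool.Agent.H94.ZProof.extension ι π hι hπ hex hJ hC hs

end Pool.Agent.Results.MP_6f16c7_an.Extension
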